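import Pool.Agent.HM13.TR.Graph

set_option autoImplicit false
set_option linter.unusedSectionVars false

/-!
# Graphs without `C_{2k}`: the number of edges in terms of the rank
-/

namespace Pool.Agent.HM13.TR

open Finset Pool.Agent.N721.SR

universe u

/-- few vertices are incident to few edges -/
theorem ee_small (k : ℕ) (hk : 2 ≤ k) : ∃ C : ℝ, 0 < C ∧
    ∀ (V : Type) [Fintype V] (G : SimpleGraph V), (SimpleGraph.cycleGraph (2 * k)).Free G →
      ∀ U : Finset V, ee G U univ ≤ C * Fintype.card V * (#U : ℝ) ^ (1 / (k : ℝ)) := by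
  classical
  have hP := c2k_her hk
  have hk0 : (0 : ℝ) < k := by
    have : 0 < k := by omega
    exact_mod_cast this
  have hk2 : (2 : ℝ) ≤ k := by exact_mod_cast hk
  obtain ⟨α, hα⟩ : ∃ α : ℝ, α = 1 / (k : ℝ) := ⟨_, rfl⟩
  have hα0 : 0 < α := by rw [hα]; positivity
  have hα1 : α ≤ 1 := by
    rw [hα, div_le_one hk0]; linarith
  obtain ⟨C₀, hC₀, hF⟩ := bondy_simonovits hk hP
  rw [← hα] at hF ⊢
  refine ⟨8 * C₀, by positivity, fun V _ G hG U => ?_⟩
  rcases Nat.eq_zero_or_pos #U with h0 | h0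
  · rw [card_eq_zero] at h0
    rw [h0]
    have : ee G ∅ univ = 0 := by unfold ee; simp
    rw [this]
    positivity
  · set s := #U with hs
    set n := Fintype.card V with hn
    have hsn : s ≤ n := card_le_univ U
    have hs0 : (0 : ℝ) < s := by exact_mod_cast h0
    have hsn' : (s : ℝ) ≤ n := by exact_mod_cast hsn
    have hn0 : (0 : ℝ) < n := by linarith
    have hB0 : 0 ≤ C₀ * (2 * (s : ℝ)) ^ (1 + α) := by positivity
    have h1 := hP.small_set G hG U s h0 (C₀ * (2 * (s : ℝ)) ^ (1 + α)) (fun t ht => by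
      rcases Nat.eq_zero_or_pos t with ht0 | ht0
      · have : hP.F t = 0 := by
          rw [ht0]
          unfold Her.F ee
          simp
        rw [this]
        exact hB0
      · refine (hF t ht0).trans ?_
        refine mul_le_mul_of_nonneg_left ?_ hC₀.le
        refine Real.rpow_le_rpow (by positivity) ?_ (by positivity)
        have : (t : ℝ) ≤ #U + s := by exact_mod_cast ht
        rw [← hs] at this
        linarith)
    have h2 : (2 * (s : ℝ)) ^ (1 + α) ≤ 4 * (s * (s : ℝ) ^ α) := by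
      rw [Real.rpow_add (by positivity), Real.rpow_one, Real.mul_rpow (by norm_num) hs0.le]
      have h3 : (2 : ℝ) ^ α ≤ 2 := by
        calc (2 : ℝ) ^ α ≤ (2 : ℝ) ^ (1 : ℝ) := Real.rpow_le_rpow_of_exponent_le (by norm_num) hα1
          _ = 2 := Real.rpow_one _
      have h4 : 0 ≤ (s : ℝ) * (s : ℝ) ^ α := by positivity
      calc 2 * (s : ℝ) * ((2 : ℝ) ^ α * (s : ℝ) ^ α) = (2 * (2 : ℝ) ^ α) * (s * (s : ℝ) ^ α) := by ring
        _ ≤ 4 * (s * (s : ℝ) ^ α) := mul_le_mul_of_nonneg_right (by linarith) h4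
    have h5 : ((n / s + 1 : ℕ) : ℝ) ≤ 2 * (n / s) := by
      push_cast
      have h6 : ((n / s : ℕ) : ℝ) ≤ (n : ℝ) / s := Nat.cast_div_le
      have h7 : 1 ≤ (n : ℝ) / s := by
        rw [le_div_iff₀ hs0]; linarith
      linarith
    calc ee G U univ ≤ ((n / s + 1 : ℕ) : ℝ) * (C₀ * (2 * (s : ℝ)) ^ (1 + α)) := h1
      _ ≤ (2 * (n / s)) * (C₀ * (4 * (s * (s : ℝ) ^ α))) := by
          refine mul_le_mul h5 (mul_le_mul_of_nonneg_left h2 hC₀.le) hB0 (by positivity)
      _ = 8 * C₀ * n * (s : ℝ) ^ α := by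
          field_simp
          ring

/-- **The bound of Bondy and Simonovits with the rank in place of the number of vertices.** -/
theorem edges_bound (k : ℕ) (hk : 2 ≤ k) : ∃ C : ℝ, 0 < C ∧
    ∀ (K : Type u) [Field K] [CharZero K] (V : Type) [Fintype V] (G : SimpleGraph V),
      (SimpleGraph.cycleGraph (2 * k)).Free G → ∀ W : Matrix V V K,
      (∀ x y, x ≠ y → (W x y ≠ 0 ↔ G.Adj x y)) →
      (Nat.card G.edgeSet : ℝ) ≤ C * Fintype.card V * (W.rank : ℝ) ^ (1 / (k : ℝ)) := by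
  classical
  have hk0 : (0 : ℝ) < k := by
    have : 0 < k := by omega
    exact_mod_cast this
  have hk2 : (2 : ℝ) ≤ k := by exact_mod_cast hk
  obtain ⟨C₁, hC₁, hsm⟩ := ee_small k hk
  obtain ⟨α, hα⟩ : ∃ α : ℝ, α = 1 / (k : ℝ) := ⟨_, rfl⟩
  have hα0 : 0 < α := by rw [hα]; positivity
  have hα1 : α ≤ 1 := by
    rw [hα, div_le_one hk0]; linarith
  rw [← hα] at hsm ⊢
  refine ⟨C₁ * (10 * k), by positivity, fun K _ _ V _ G hG W hW => ?_⟩
  obtain ⟨U, hU, hcov⟩ := exists_cover k hk G hG W hW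
  refine (edges_le_cover G U hcov).trans ((hsm V G hG U).trans ?_)
  have h1 : (#U : ℝ) ≤ 10 * k * W.rank := by
    have h2 : #U ≤ 10 * k * W.rank := by
      refine hU.trans ?_
      rw [← mul_assoc]
      exact Nat.mul_le_mul_right _ (by omega)
    exact_mod_cast h2
  have h2 : (#U : ℝ) ^ α ≤ (10 * k) * (W.rank : ℝ) ^ α := by
    calc (#U : ℝ) ^ α ≤ (10 * k * W.rank : ℝ) ^ α :=
          Real.rpow_le_rpow (by positivity) h1 hα0.le
      _ = (10 * k : ℝ) ^ α * (W.rank : ℝ) ^ α := Real.mul_rpow (by positivity) (by positivity)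
      _ ≤ (10 * k) * (W.rank : ℝ) ^ α := by
          refine mul_le_mul_of_nonneg_right ?_ (by positivity)
          calc (10 * k : ℝ) ^ α ≤ (10 * k : ℝ) ^ (1 : ℝ) :=
                Real.rpow_le_rpow_of_exponent_le (by linarith) hα1
            _ = 10 * k := Real.rpow_one _
  calc C₁ * Fintype.card V * (#U : ℝ) ^ α ≤
      C₁ * Fintype.card V * ((10 * k) * (W.rank : ℝ) ^ α) :=
        mul_le_mul_of_nonneg_left h2 (by positivity)
    _ = _ := by ring

/-- graphs with many edges and without `C_{2k}` have linear rank -/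
theorem linear_rank (k : ℕ) (hk : 2 ≤ k) (c : ℝ) (hc : 0 < c) : ∃ δ : ℝ, 0 < δ ∧
    ∀ (K : Type u) [Field K] [CharZero K] (V : Type) [Fintype V] (G : SimpleGraph V),
      (SimpleGraph.cycleGraph (2 * k)).Free G →
      c * (Fintype.card V : ℝ) ^ (1 + 1 / (k : ℝ)) ≤ Nat.card G.edgeSet → ∀ W : Matrix V V K,
      (∀ x y, x ≠ y → (W x y ≠ 0 ↔ G.Adj x y)) → δ * Fintype.card V ≤ W.rank := by
  obtain ⟨C, hC, hb⟩ := edges_bound.{u} k hk
  have hk0 : (0 : ℝ) < k := by
    have : 0 < k := by omega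
    exact_mod_cast this
  refine ⟨(c / C) ^ k, by positivity, fun K _ _ V _ G hG he W hW => ?_⟩
  have h1 := he.trans (hb K V G hG W hW)
  rcases Nat.eq_zero_or_pos (Fintype.card V) with h0 | h0
  · rw [h0]
    simp
  have hn0 : (0 : ℝ) < Fintype.card V := by exact_mod_cast h0
  rw [Real.rpow_add hn0, Real.rpow_one] at h1
  have h2 : (c / C) * (Fintype.card V : ℝ) ^ (1 / (k : ℝ)) ≤ (W.rank : ℝ) ^ (1 / (k : ℝ)) := by
    have h3 : Fintype.card V * (c * (Fintype.card V : ℝ) ^ (1 / (k : ℝ))) ≤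
        Fintype.card V * (C * (W.rank : ℝ) ^ (1 / (k : ℝ))) := by
      calc _ = c * (Fintype.card V * (Fintype.card V : ℝ) ^ (1 / (k : ℝ))) := by ring
        _ ≤ _ := h1
        _ = _ := by ring
    have h4 := le_of_mul_le_mul_left h3 hn0
    rw [div_mul_eq_mul_div, div_le_iff₀ hC]
    linarith
  have h3 := pow_le_pow_left₀ (by positivity) h2 k
  have hroot : ∀ z : ℝ, 0 ≤ z → (z ^ (1 / (k : ℝ))) ^ k = z := by
    intro z hz
    rw [← Real.rpow_natCast, ← Real.rpow_mul hz, one_div_mul_cancel hk0.ne', Real.rpow_one]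
  rw [mul_pow, hroot _ hn0.le, hroot _ (by positivity)] at h3
  exact h3

end Pool.Agent.HM13.TR
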