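import Mathlib

set_option autoImplicit false
set_option linter.unusedSectionVars false

/-!
# Orientations of degenerate graphs, long paths in graphs with large minimum degree
-/

namespace Pool.Agent.HM13.TR

open Finset

section

variable {X : Type} [Fintype X] [DecidableEq X]

open Classical in
/-- a relation each of whose restrictions has an element of small degree has an orientation with
small out-degrees -/
theorem exists_orient (T : X → X → Prop) (d : ℕ)
    (hT : ∀ S : Finset X, S.Nonempty → ∃ x ∈ S, #{x' ∈ S | T x x'} ≤ d) :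
    ∃ R : X → X → Prop, (∀ x x', T x x' → R x x' ∨ R x' x) ∧
      ∀ x, #{x' | T x x' ∧ R x x'} ≤ d := by
  have key : ∀ S : Finset X, ∃ R : X → X → Prop,
      (∀ x ∈ S, ∀ x' ∈ S, T x x' → R x x' ∨ R x' x) ∧
      ∀ x ∈ S, #{x' ∈ S | T x x' ∧ R x x'} ≤ d := by
    intro S
    induction S using Finset.strongInduction with
    | H S ih =>
      rcases S.eq_empty_or_nonempty with h0 | h0
      · subst h0
        exact ⟨fun _ _ => True, by simp, by simp⟩
      · obtain ⟨v, hv, hd⟩ := hT S h0
        obtain ⟨R', h1, h2⟩ := ih (S.erase v) (erase_ssubset hv)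
        refine ⟨fun x x' => if x = v then True else x' ≠ v ∧ R' x x', fun x hx x' hx' hxx => ?_,
          fun x hx => ?_⟩
        · by_cases hxv : x = v
          · left; simp [hxv]
          · by_cases hxv' : x' = v
            · right; simp [hxv']
            · rcases h1 x (mem_erase.2 ⟨hxv, hx⟩) x' (mem_erase.2 ⟨hxv', hx'⟩) hxx with h | h
              · left; simp [hxv, hxv', h]
              · right; simp [hxv, hxv', h]
        · by_cases hxv : x = v
          · subst hxv
            refine le_trans (card_le_card ?_) hd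
            intro x' hx'
            simp only [mem_filter] at hx' ⊢
            exact ⟨hx'.1, hx'.2.1⟩
          · refine le_trans (card_le_card ?_) (h2 x (mem_erase.2 ⟨hxv, hx⟩))
            intro x' hx'
            simp only [mem_filter, if_neg hxv] at hx' ⊢
            exact ⟨mem_erase.2 ⟨hx'.2.2.1, hx'.1⟩, hx'.2.1, hx'.2.2.2⟩
  obtain ⟨R, h1, h2⟩ := key univ
  exact ⟨R, fun x x' => h1 x (mem_univ _) x' (mem_univ _), fun x => h2 x (mem_univ _)⟩

open Classical in
/-- a relation of minimum degree at least `k - 1` on `S` contains a path with `k` vertices -/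
theorem exists_path (T : X → X → Prop) (hirr : ∀ x, ¬ T x x)
    (k : ℕ) (S : Finset X) (hS : S.Nonempty)
    (hdeg : ∀ x ∈ S, k ≤ #{x' ∈ S | T x x'} + 1) :
    ∀ j : ℕ, j + 1 ≤ k → ∃ x : Fin (j + 1) → X, Function.Injective x ∧ (∀ i, x i ∈ S) ∧
      ∀ i : Fin j, T (x i.castSucc) (x i.succ) := by
  intro j
  induction j with
  | zero =>
    intro _
    obtain ⟨v, hv⟩ := hS
    exact ⟨fun _ => v, fun a b _ => Fin.ext (by omega), fun _ => hv, fun i => i.elim0⟩
  | succ j ih =>
    intro hj
    obtain ⟨x, hinj, hmem, hT⟩ := ih (by omega)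
    -- a new neighbour of the last vertex
    have h1 := hdeg (x (Fin.last j)) (hmem _)
    have h2 : ∃ v ∈ ({x' ∈ S | T (x (Fin.last j)) x'} : Finset X),
        v ∉ ((univ : Finset (Fin (j + 1))).erase (Fin.last j)).image x := by
      by_contra hcon
      push Not at hcon
      have h3 : #{x' ∈ S | T (x (Fin.last j)) x'} ≤
          #(((univ : Finset (Fin (j + 1))).erase (Fin.last j)).image x) :=
        card_le_card fun v hv => hcon v hv
      have h4 : #(((univ : Finset (Fin (j + 1))).erase (Fin.last j)).image x) ≤ j := by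
        refine card_image_le.trans ?_
        rw [card_erase_of_mem (mem_univ _), card_univ, Fintype.card_fin]
        omega
      omega
    obtain ⟨v, hv, hv'⟩ := h2
    rw [mem_filter] at hv
    have hvx : ∀ i, x i ≠ v := by
      intro i hi
      by_cases hil : i = Fin.last j
      · rw [hil] at hi
        rw [hi] at hv
        exact hirr v hv.2
      · exact hv' (mem_image.2 ⟨i, mem_erase.2 ⟨hil, mem_univ _⟩, hi⟩)
    refine ⟨Fin.snoc x v, ?_, ?_, ?_⟩
    · rw [Fin.snoc_injective_iff]
      exact ⟨hinj, fun ⟨i, hi⟩ => hvx i hi⟩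
    · intro i
      refine Fin.lastCases ?_ (fun i => ?_) i
      · rw [Fin.snoc_last]; exact hv.1
      · rw [Fin.snoc_castSucc]; exact hmem i
    · intro i
      refine Fin.lastCases ?_ (fun i => ?_) i
      · rw [Fin.snoc_castSucc, Fin.succ_last, Fin.snoc_last]
        exact hv.2
      · rw [Fin.snoc_castSucc, Fin.succ_castSucc, Fin.snoc_castSucc]
        exact hT i

end

section

variable {X Y : Type} [Fintype X] [Fintype Y] [DecidableEq X] [DecidableEq Y]

open Classical in
/-- the pairs with at least `k` common neighbours -/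
def bad (E : X → Y → Prop) (k : ℕ) (x x' : X) : Prop :=
  x ≠ x' ∧ k ≤ #{y | E x y ∧ E x' y}

/-- a bipartite graph has no cycle of length `2 k` -/
def NoCyc (E : X → Y → Prop) (k : ℕ) [NeZero k] : Prop :=
  ∀ (x : Fin k → X) (y : Fin k → Y), Function.Injective x → Function.Injective y →
    ¬ ∀ i, E (x i) (y i) ∧ E (x (i + 1)) (y i)

open Classical in
theorem orient_of_noCyc (E : X → Y → Prop) (k : ℕ) [NeZero k] (hk : 2 ≤ k) (h : NoCyc E k) (y : Y) :
    ∃ R : X → X → Prop, (∀ x x', bad E k x x' → E x y → E x' y → R x x' ∨ R x' x) ∧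
      ∀ x, #{x' | (bad E k x x' ∧ E x y ∧ E x' y) ∧ R x x'} ≤ k - 2 := by
  obtain ⟨R, h1, h2⟩ := exists_orient (fun x x' => bad E k x x' ∧ E x y ∧ E x' y) (k - 2) (by
    intro S hS
    by_contra hcon
    push Not at hcon
    obtain ⟨x, hinj, -, hT⟩ := exists_path (fun x x' => bad E k x x' ∧ E x y ∧ E x' y)
      (fun x hx => hx.1.1 rfl) k S hS (fun x hx => by have := hcon x hx; omega) (k - 1) (by omega)
    -- a system of representatives
    obtain ⟨f, hf, hf'⟩ := (Finset.all_card_le_biUnion_card_iff_exists_injective
      (fun i : Fin (k - 1) =>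
        (univ.filter fun y' => E (x i.castSucc) y' ∧ E (x i.succ) y').erase y)).1 (by
      intro s
      rcases s.eq_empty_or_nonempty with h0 | ⟨i, hi⟩
      · rw [h0]; simp
      · have h3 : #s ≤ k - 1 := by
          have := card_le_univ s
          rwa [Fintype.card_fin] at this
        have h4 : k - 1 ≤ #((univ.filter fun y' => E (x i.castSucc) y' ∧ E (x i.succ) y').erase y) := by
          have h5 := (hT i).1.2
          have h6 := pred_card_le_card_erase
            (s := univ.filter fun y' => E (x i.castSucc) y' ∧ E (x i.succ) y') (a := y)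
          omega
        exact (h3.trans h4).trans (card_le_card (subset_biUnion_of_mem (fun i : Fin (k - 1) =>
          (univ.filter fun y' => E (x i.castSucc) y' ∧ E (x i.succ) y').erase y) hi)))
    obtain ⟨m, rfl⟩ : ∃ m, k = m + 1 := ⟨k - 1, by omega⟩
    have hm : m + 1 - 1 = m := rfl
    refine h (fun i => x i) (Fin.snoc f y) (fun i j hij => hinj hij) ?_ ?_
    · rw [Fin.snoc_injective_iff]
      refine ⟨hf, ?_⟩
      rintro ⟨i, hi⟩
      have := hf' i
      rw [hi] at this
      simp at this
    · intro i
      refine Fin.lastCases ?_ (fun i => ?_) i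
      · rw [Fin.snoc_last, Fin.last_add_one]
        have hm1 : 0 < m := by omega
        have e1 := (hT ⟨m - 1, by omega⟩).2.2
        have e2 := (hT ⟨0, by omega⟩).2.1
        refine ⟨?_, ?_⟩
        · convert e1 using 2
          ext
          simp
          omega
        · exact e2
      · rw [Fin.snoc_castSucc]
        have h3 := hf' i
        rw [mem_erase, mem_filter] at h3
        rw [Fin.coeSucc_eq_succ]
        exact h3.2.2)
  exact ⟨R, fun x x' hb hx hx' => h1 x x' ⟨hb, hx, hx'⟩, fun x => by convert h2 x⟩

end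

end Pool.Agent.HM13.TR
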