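import Mathlib

set_option autoImplicit false
set_option linter.unusedSectionVars false

/-!
# The rank and the traces of the first two powers
-/

namespace Pool.Agent.HM13.TR

open Finset Matrix
open scoped ComplexOrder

variable {X Y : Type} [Fintype X] [Fintype Y] [DecidableEq X] [DecidableEq Y]

theorem trace_sq (S : Matrix X X ℂ) (hS : S.IsHermitian) :
    ∑ x, ∑ x', ‖S x x'‖ ^ 2 = ∑ i, hS.eigenvalues i ^ 2 := by
  have h1 : (S * S).trace = ∑ i, ((hS.eigenvalues i ^ 2 : ℝ) : ℂ) := by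
    have h2 := hS.spectral_theorem
    set U := hS.eigenvectorUnitary with hU
    set D : Matrix X X ℂ := diagonal (RCLike.ofReal ∘ hS.eigenvalues) with hD
    calc (S * S).trace = (Unitary.conjStarAlgAut ℂ _ U (D * D)).trace := by
          rw [map_mul, ← h2]
      _ = (D * D).trace := by
          rw [Unitary.conjStarAlgAut_apply, Matrix.trace_mul_comm, ← mul_assoc]
          simp
      _ = _ := by
          rw [hD, diagonal_mul_diagonal, trace_diagonal]
          refine sum_congr rfl fun i _ => ?_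
          simp [sq]
  have h3 : (S * S).trace = ∑ x, ∑ x', ((‖S x x'‖ ^ 2 : ℝ) : ℂ) := by
    rw [trace]
    refine sum_congr rfl fun x _ => ?_
    rw [diag_apply, mul_apply]
    refine sum_congr rfl fun x' _ => ?_
    have h4 : S x' x = star (S x x') := by
      rw [← hS.apply x' x]
    rw [h4, RCLike.star_def, RCLike.mul_conj]
    push_cast
    rfl
  have h5 : ((∑ x, ∑ x', ‖S x x'‖ ^ 2 : ℝ) : ℂ) = ((∑ i, hS.eigenvalues i ^ 2 : ℝ) : ℂ) := by
    push_cast
    push_cast at h1 h3
    rw [← h1, h3]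
  exact_mod_cast h5

theorem rank_ineq (M : Matrix X Y ℂ) :
    (∑ x, ∑ y, ‖M x y‖ ^ 2) ^ 2 ≤ (M.rank : ℝ) * ∑ x, ∑ x', ‖(M * Mᴴ) x x'‖ ^ 2 := by
  have hS : (M * Mᴴ).IsHermitian := isHermitian_mul_conjTranspose_self M
  have h1 : ∑ x, ∑ y, ‖M x y‖ ^ 2 = ∑ i, hS.eigenvalues i := by
    have h2 := hS.trace_eq_sum_eigenvalues
    have h3 : (M * Mᴴ).trace = ∑ x, ∑ y, ((‖M x y‖ ^ 2 : ℝ) : ℂ) := by
      rw [trace]
      refine sum_congr rfl fun x _ => ?_
      rw [diag_apply, mul_apply]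
      refine sum_congr rfl fun y _ => ?_
      rw [conjTranspose_apply, RCLike.star_def, RCLike.mul_conj]
      push_cast
      rfl
    have h4 : ((∑ x, ∑ y, ‖M x y‖ ^ 2 : ℝ) : ℂ) = ((∑ i, hS.eigenvalues i : ℝ) : ℂ) := by
      push_cast
      push_cast at h2 h3
      rw [← h3, h2]
      rfl
    exact_mod_cast h4
  rw [h1, trace_sq _ hS, ← rank_self_mul_conjTranspose M, hS.rank_eq_card_non_zero_eigs]
  rw [Fintype.card_subtype]
  have h5 : ∑ i, hS.eigenvalues i = ∑ i ∈ univ.filter (fun i => hS.eigenvalues i ≠ 0),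
      hS.eigenvalues i := by
    rw [sum_filter_ne_zero]
  rw [h5]
  refine (sq_sum_le_card_mul_sum_sq).trans ?_
  refine mul_le_mul_of_nonneg_left ?_ (by positivity)
  exact sum_le_sum_of_subset_of_nonneg (filter_subset _ _) fun i _ _ => sq_nonneg _

end Pool.Agent.HM13.TR
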