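import Pool.Agent.HM13.TR.Scale
import Pool.Agent.HM13.TR.Rank
import Pool.Agent.HM13.TR.Orient

set_option autoImplicit false
set_option linter.unusedSectionVars false

/-!
# The rank of a matrix whose bipartite graph has no cycle of length `2 k`
-/

namespace Pool.Agent.HM13.TR

open Finset

section

variable {X Y : Type} [Fintype X] [Fintype Y]

open Classical in
theorem pair_bound (E : X → Y → Prop) (k : ℕ) [NeZero k] (hk : 2 ≤ k) (p : X → Y → ℝ)
    (hp : ∀ x y, 0 ≤ p x y) (hE : ∀ x y, p x y ≠ 0 → E x y)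
    (hrow : ∀ x, ∑ y, p x y ^ 2 ≤ 1) (R : Y → X → X → Prop)
    (hR : ∀ y x x', bad E k x x' → E x y → E x' y → R y x x' ∨ R y x' x) (x x' : X) :
    (∑ y, p x y * p x' y) ^ 2 ≤ (if x = x' then ∑ y, p x y ^ 2 else 0) +
      ((k : ℝ) - 1) * ∑ y, p x y ^ 2 * p x' y ^ 2 +
      2 * ∑ y, (if (bad E k x x' ∧ E x y ∧ E x' y) ∧ R y x x' then p x y ^ 2 else 0) +
      2 * ∑ y, (if (bad E k x' x ∧ E x' y ∧ E x y) ∧ R y x' x then p x' y ^ 2 else 0) := by
  have hk1 : (1 : ℝ) ≤ (k : ℝ) - 1 := by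
    have : (2 : ℝ) ≤ k := by exact_mod_cast hk
    linarith
  have n1 : 0 ≤ (if x = x' then ∑ y, p x y ^ 2 else 0) := by
    split_ifs
    · exact sum_nonneg fun y _ => sq_nonneg _
    · exact le_rfl
  have n2 : 0 ≤ ((k : ℝ) - 1) * ∑ y, p x y ^ 2 * p x' y ^ 2 :=
    mul_nonneg (by linarith) (sum_nonneg fun y _ => by positivity)
  have n3 : 0 ≤ ∑ y, (if (bad E k x x' ∧ E x y ∧ E x' y) ∧ R y x x' then p x y ^ 2 else 0) :=
    sum_nonneg fun y _ => by split_ifs <;> positivity
  have n4 : 0 ≤ ∑ y, (if (bad E k x' x ∧ E x' y ∧ E x y) ∧ R y x' x then p x' y ^ 2 else 0) :=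
    sum_nonneg fun y _ => by split_ifs <;> positivity
  by_cases hxx : x = x'
  · subst hxx
    rw [if_pos rfl] at n1 ⊢
    have h1 : (∑ y, p x y * p x y) ^ 2 ≤ ∑ y, p x y ^ 2 := by
      have h2 : ∑ y, p x y * p x y = ∑ y, p x y ^ 2 := sum_congr rfl fun y _ => by ring
      rw [h2, sq]
      exact mul_le_of_le_one_left n1 (hrow x)
    linarith
  · by_cases hb : k ≤ #{y | E x y ∧ E x' y}
    · have hbad : bad E k x x' := ⟨hxx, by convert hb⟩
      have hbad' : bad E k x' x := ⟨fun h => hxx h.symm, by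
        have : #{y | E x' y ∧ E x y} = #{y | E x y ∧ E x' y} := by
          congr 1
          ext y
          simp only [mem_filter, mem_univ, true_and]
          exact and_comm
        convert hb.trans this.ge⟩
      set u : Y → ℝ := fun y => if (bad E k x x' ∧ E x y ∧ E x' y) ∧ R y x x' then p x y else 0
        with hu
      set v : Y → ℝ := fun y => if (bad E k x' x ∧ E x' y ∧ E x y) ∧ R y x' x then p x' y else 0
        with hv
      have hu0 : ∀ y, 0 ≤ u y := fun y => by
        simp only [hu]; split_ifs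
        · exact hp _ _
        · exact le_rfl
      have hv0 : ∀ y, 0 ≤ v y := fun y => by
        simp only [hv]; split_ifs
        · exact hp _ _
        · exact le_rfl
      have h1 : ∑ y, p x y * p x' y ≤ ∑ y, u y * p x' y + ∑ y, v y * p x y := by
        rw [← sum_add_distrib]
        refine sum_le_sum fun y _ => ?_
        by_cases h0 : p x y = 0
        · rw [h0, zero_mul, mul_zero, add_zero]
          exact mul_nonneg (hu0 y) (hp _ _)
        by_cases h0' : p x' y = 0
        · rw [h0', mul_zero, mul_zero, zero_add]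
          exact mul_nonneg (hv0 y) (hp _ _)
        have hEx := hE x y h0
        have hEx' := hE x' y h0'
        rcases hR y x x' hbad hEx hEx' with h | h
        · have : u y = p x y := by
            simp only [hu]
            rw [if_pos ⟨⟨hbad, hEx, hEx'⟩, h⟩]
          rw [this]
          have := mul_nonneg (hv0 y) (hp x y)
          linarith
        · have : v y = p x' y := by
            simp only [hv]
            rw [if_pos ⟨⟨hbad', hEx', hEx⟩, h⟩]
          rw [this]
          have := mul_nonneg (hu0 y) (hp x' y)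
          linarith [mul_comm (p x y) (p x' y)]
      have h2 : (∑ y, u y * p x' y) ^ 2 ≤
          ∑ y, (if (bad E k x x' ∧ E x y ∧ E x' y) ∧ R y x x' then p x y ^ 2 else 0) := by
        refine (sum_mul_sq_le_sq_mul_sq _ _ _).trans ?_
        have h3 : ∑ y, u y ^ 2 =
            ∑ y, (if (bad E k x x' ∧ E x y ∧ E x' y) ∧ R y x x' then p x y ^ 2 else 0) := by
          refine sum_congr rfl fun y _ => ?_
          simp only [hu]
          split_ifs
          · rfl
          · ring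
        rw [h3]
        exact mul_le_of_le_one_right n3 (hrow x')
      have h3 : (∑ y, v y * p x y) ^ 2 ≤
          ∑ y, (if (bad E k x' x ∧ E x' y ∧ E x y) ∧ R y x' x then p x' y ^ 2 else 0) := by
        refine (sum_mul_sq_le_sq_mul_sq _ _ _).trans ?_
        have h3 : ∑ y, v y ^ 2 =
            ∑ y, (if (bad E k x' x ∧ E x' y ∧ E x y) ∧ R y x' x then p x' y ^ 2 else 0) := by
          refine sum_congr rfl fun y _ => ?_
          simp only [hv]
          split_ifs
          · rfl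
          · ring
        rw [h3]
        exact mul_le_of_le_one_right n4 (hrow x)
      have h4 : 0 ≤ ∑ y, p x y * p x' y := sum_nonneg fun y _ => mul_nonneg (hp _ _) (hp _ _)
      have h5 : (∑ y, p x y * p x' y) ^ 2 ≤ (∑ y, u y * p x' y + ∑ y, v y * p x y) ^ 2 :=
        pow_le_pow_left₀ h4 h1 2
      have h6 : (∑ y, u y * p x' y + ∑ y, v y * p x y) ^ 2 ≤
          2 * (∑ y, u y * p x' y) ^ 2 + 2 * (∑ y, v y * p x y) ^ 2 := by
        nlinarith [sq_nonneg (∑ y, u y * p x' y - ∑ y, v y * p x y)]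
      linarith
    · have h1 : ∑ y, p x y * p x' y = ∑ y ∈ univ.filter (fun y => E x y ∧ E x' y),
          p x y * p x' y := by
        symm
        refine sum_subset (filter_subset _ _) fun y _ hy => ?_
        rw [mem_filter] at hy
        by_contra hne
        exact hy ⟨mem_univ _, hE x y (left_ne_zero_of_mul hne), hE x' y (right_ne_zero_of_mul hne)⟩
      have h2 : (∑ y, p x y * p x' y) ^ 2 ≤ ((k : ℝ) - 1) * ∑ y, p x y ^ 2 * p x' y ^ 2 := by
        rw [h1]
        refine (sq_sum_le_card_mul_sum_sq).trans ?_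
        have h3 : ((#(univ.filter (fun y => E x y ∧ E x' y)) : ℕ) : ℝ) ≤ (k : ℝ) - 1 := by
          have h4 : #(univ.filter (fun y => E x y ∧ E x' y)) + 1 ≤ k := by
            push Not at hb
            exact hb
          have h5 : ((#(univ.filter (fun y => E x y ∧ E x' y)) : ℕ) : ℝ) + 1 ≤ k := by
            exact_mod_cast h4
          linarith
        refine mul_le_mul h3 ?_ (sum_nonneg fun y _ => sq_nonneg _) (by linarith)
        calc ∑ y ∈ univ.filter (fun y => E x y ∧ E x' y), (p x y * p x' y) ^ 2 ≤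
            ∑ y, (p x y * p x' y) ^ 2 :=
              sum_le_sum_of_subset_of_nonneg (filter_subset _ _) fun y _ _ => sq_nonneg _
          _ = _ := sum_congr rfl fun y _ => by ring
      linarith

open Classical in
theorem sum_bound (E : X → Y → Prop) (k : ℕ) [NeZero k] (hk : 2 ≤ k) (hcyc : NoCyc E k)
    (p : X → Y → ℝ) (hp : ∀ x y, 0 ≤ p x y) (hE : ∀ x y, p x y ≠ 0 → E x y)
    (hrow : ∀ x, ∑ y, p x y ^ 2 ≤ 1) (hcol : ∀ y, ∑ x, p x y ^ 2 ≤ 1) :
    ∑ x, ∑ x', (∑ y, p x y * p x' y) ^ 2 ≤ (5 * (k : ℝ) - 8) * ∑ x, ∑ y, p x y ^ 2 := by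
  choose R hR1 hR2 using fun y => orient_of_noCyc E k hk hcyc y
  have hk2 : (0 : ℝ) ≤ (k : ℝ) - 2 := by
    have : (2 : ℝ) ≤ k := by exact_mod_cast hk
    linarith
  set τ := ∑ x, ∑ y, p x y ^ 2 with hτ
  have t1 : ∑ x, ∑ x', (if x = x' then ∑ y, p x y ^ 2 else 0) = τ := by
    refine sum_congr rfl fun x _ => ?_
    rw [sum_ite_eq, if_pos (mem_univ _)]
  have t2 : ∑ x, ∑ x', ∑ y, p x y ^ 2 * p x' y ^ 2 ≤ τ := by
    have e1 : ∑ x, ∑ x', ∑ y, p x y ^ 2 * p x' y ^ 2 = ∑ y, (∑ x, p x y ^ 2) * ∑ x', p x' y ^ 2 := by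
      calc ∑ x, ∑ x', ∑ y, p x y ^ 2 * p x' y ^ 2 = ∑ x, ∑ y, ∑ x', p x y ^ 2 * p x' y ^ 2 :=
            sum_congr rfl fun x _ => sum_comm
        _ = ∑ y, ∑ x, ∑ x', p x y ^ 2 * p x' y ^ 2 := sum_comm
        _ = _ := by
            refine sum_congr rfl fun y _ => ?_
            rw [sum_mul_sum]
    rw [e1]
    calc ∑ y, (∑ x, p x y ^ 2) * ∑ x', p x' y ^ 2 ≤ ∑ y, ∑ x, p x y ^ 2 :=
          sum_le_sum fun y _ => mul_le_of_le_one_right (sum_nonneg fun x _ => sq_nonneg _) (hcol y)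
      _ = τ := sum_comm
  have t3 : ∑ x, ∑ x', ∑ y, (if (bad E k x x' ∧ E x y ∧ E x' y) ∧ R y x x' then p x y ^ 2 else 0) ≤
      ((k : ℝ) - 2) * τ := by
    calc ∑ x, ∑ x', ∑ y, (if (bad E k x x' ∧ E x y ∧ E x' y) ∧ R y x x' then p x y ^ 2 else 0) =
        ∑ x, ∑ y, ∑ x', (if (bad E k x x' ∧ E x y ∧ E x' y) ∧ R y x x' then p x y ^ 2 else 0) :=
          sum_congr rfl fun x _ => sum_comm
      _ ≤ ∑ x, ∑ y, ((k : ℝ) - 2) * p x y ^ 2 := by
          refine sum_le_sum fun x _ => sum_le_sum fun y _ => ?_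
          rw [← sum_filter, sum_const, nsmul_eq_mul]
          refine mul_le_mul_of_nonneg_right ?_ (sq_nonneg _)
          have h1 := hR2 y x
          have h2 : ((k - 2 : ℕ) : ℝ) = (k : ℝ) - 2 := by
            rw [Nat.cast_sub hk]; norm_num
          rw [← h2]
          exact_mod_cast h1
      _ = _ := by
          rw [hτ, mul_sum]
          exact sum_congr rfl fun x _ => by rw [mul_sum]
  have t4 : ∑ x, ∑ x', ∑ y, (if (bad E k x' x ∧ E x' y ∧ E x y) ∧ R y x' x then p x' y ^ 2 else 0) ≤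
      ((k : ℝ) - 2) * τ := by
    rw [sum_comm]
    exact t3
  have main : ∑ x, ∑ x', (∑ y, p x y * p x' y) ^ 2 ≤
      ∑ x, ∑ x', ((if x = x' then ∑ y, p x y ^ 2 else 0) +
      ((k : ℝ) - 1) * ∑ y, p x y ^ 2 * p x' y ^ 2 +
      2 * ∑ y, (if (bad E k x x' ∧ E x y ∧ E x' y) ∧ R y x x' then p x y ^ 2 else 0) +
      2 * ∑ y, (if (bad E k x' x ∧ E x' y ∧ E x y) ∧ R y x' x then p x' y ^ 2 else 0)) :=
    sum_le_sum fun x _ => sum_le_sum fun x' _ =>
      pair_bound E k hk p hp hE hrow R (fun y x x' => hR1 y x x') x x'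
  refine main.trans ?_
  simp only [sum_add_distrib, ← mul_sum]
  rw [t1]
  have := mul_le_mul_of_nonneg_left t2 (by linarith : (0 : ℝ) ≤ (k : ℝ) - 1)
  nlinarith

end

end Pool.Agent.HM13.TR
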