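import Pool.Agent.HM13.TR.Edges

set_option autoImplicit false
set_option linter.unusedSectionVars false

/-!
# The minimum rank and the vertex cover number
-/

namespace Pool.Agent.HM13.TR

open Finset

universe u

theorem rank_add_le {K : Type u} [Field K] {V : Type} [Fintype V] (A B : Matrix V V K) :
    (A + B).rank ≤ A.rank + B.rank := by
  unfold Matrix.rank
  rw [Matrix.mulVecLin_add]
  refine le_trans (Submodule.finrank_mono (LinearMap.range_add_le _ _)) ?_
  exact Submodule.finrank_add_le_finrank_add_finrank _ _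

/-- the adjacency matrix has rank at most twice the size of a vertex cover -/
theorem adj_rank_le (K : Type u) [Field K] {V : Type} [Fintype V] (G : SimpleGraph V) :
    ∃ W : Matrix V V K, W.IsSymm ∧ (∀ x y, x ≠ y → (W x y ≠ 0 ↔ G.Adj x y)) ∧
      (W.rank : ℕ∞) ≤ 2 * G.vertexCoverNum := by
  classical
  obtain ⟨S, hS, hcov⟩ := G.vertexCoverNum_exists
  have hfin : S.Finite := Set.toFinite S
  set U : Finset V := hfin.toFinset with hU
  have hUc : S.encard = (#U : ℕ∞) := hfin.encard_eq_coe_toFinset_card
  refine ⟨G.adjMatrix K, G.isSymm_adjMatrix, fun x y _ => ?_, ?_⟩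
  · rw [SimpleGraph.adjMatrix_apply]
    by_cases h : G.Adj x y <;> simp [h]
  · rw [← hS, hUc]
    set W₁ : Matrix V V K := Matrix.of fun x y => if x ∈ U then G.adjMatrix K x y else 0 with hW₁
    set W₂ : Matrix V V K := Matrix.of fun x y => if x ∈ U then 0 else G.adjMatrix K x y with hW₂
    have h1 : G.adjMatrix K = W₁ + W₂ := by
      ext x y
      simp only [hW₁, hW₂, Matrix.add_apply, Matrix.of_apply]
      split_ifs <;> simp
    have h2 : W₁.rank ≤ #U := by
      refine Matrix.rank_le_card_of_support_subset _ _ ?_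
      intro x hx
      by_contra hxU
      apply hx
      funext y
      show W₁ x y = 0
      have hxU' : x ∉ U := fun h => hxU (mem_coe.2 h)
      simp only [hW₁, Matrix.of_apply]
      rw [if_neg hxU']
    have h3 : W₂.rank ≤ #U := by
      rw [← Matrix.rank_transpose]
      refine Matrix.rank_le_card_of_support_subset _ _ ?_
      intro y hy
      by_contra hyU
      apply hy
      funext x
      show W₂ x y = 0
      simp only [hW₂, Matrix.of_apply]
      by_cases hxU : x ∈ U
      · rw [if_pos hxU]
      · rw [if_neg hxU, SimpleGraph.adjMatrix_apply, if_neg]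
        intro hadj
        rcases hcov hadj with h | h
        · exact hxU (hfin.mem_toFinset.2 h)
        · exact hyU (mem_coe.2 (hfin.mem_toFinset.2 h))
    have h4 : (G.adjMatrix K).rank ≤ 2 * #U := by
      have h5 := rank_add_le W₁ W₂
      rw [← h1] at h5
      omega
    exact_mod_cast h4

/-- the vertex cover number in terms of the rank -/
theorem cover_le {K : Type u} [Field K] [CharZero K] (k : ℕ) (hk : 2 ≤ k) {V : Type} [Fintype V]
    (G : SimpleGraph V) (hG : (SimpleGraph.cycleGraph (2 * k)).Free G) (W : Matrix V V K)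
    (hW : ∀ x y, x ≠ y → (W x y ≠ 0 ↔ G.Adj x y)) :
    G.vertexCoverNum ≤ (((10 * k - 16) * W.rank : ℕ) : ℕ∞) := by
  obtain ⟨U, h1, h2⟩ := exists_cover k hk G hG W hW
  have h3 : G.IsVertexCover (U : Set V) := fun x y h => h2 x y h
  refine h3.vertexCoverNum_le.trans ?_
  rw [Set.encard_coe_eq_coe_finsetCard]
  have h4 : #U ≤ (10 * k - 16) * W.rank := by
    refine h1.trans (le_of_eq ?_)
    rw [← mul_assoc]
    congr 1
    omega
  exact_mod_cast h4

/-- matrices: the term rank is at most `5 k - 8` times the rank -/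
theorem term_rank {K : Type u} [Field K] [CharZero K] (k : ℕ) (hk : 2 ≤ k) {X Y : Type}
    [Fintype X] [Fintype Y] (W : Matrix X Y K)
    (hW : ¬ ∃ (x : ZMod k → X) (y : ZMod k → Y), Function.Injective x ∧ Function.Injective y ∧
        ∀ i, W (x i) (y i) ≠ 0 ∧ W (x (i + 1)) (y i) ≠ 0)
    (m : ℕ) (r : Fin m → X) (c : Fin m → Y) (hr : Function.Injective r)
    (hc : Function.Injective c) (hrc : ∀ i, W (r i) (c i) ≠ 0) :
    m ≤ (5 * k - 8) * W.rank := by
  obtain ⟨n, rfl⟩ : ∃ n, k = n + 1 := ⟨k - 1, by omega⟩
  have h1 := main_field (n + 1) hk m (W.submatrix r c) (fun i => hrc i) (by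
    intro x y hx hy h
    exact hW ⟨fun i => r (x i), fun i => c (y i), fun a b hab => hx (hr hab),
      fun a b hab => hy (hc hab), fun i => h i⟩)
  exact h1.trans (Nat.mul_le_mul_left _ (Matrix.rank_submatrix_le W r c))

end Pool.Agent.HM13.TR
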