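import Pool.Agent.HM13.TR.Main

set_option autoImplicit false
set_option linter.unusedSectionVars false

/-!
# From the complex numbers to all fields of characteristic zero
-/

namespace Pool.Agent.HM13.TR

open Finset Matrix

universe u

/-- a countable field of characteristic zero embeds in the complex numbers -/
theorem exists_embedding (K : Type u) [Field K] [CharZero K] (h : Cardinal.mk K ≤ Cardinal.aleph0) :
    Nonempty (K →+* ℂ) := by
  obtain ⟨s, hs⟩ := exists_isTranscendenceBasis ℤ K
  obtain ⟨t, ht⟩ := exists_isTranscendenceBasis ℤ ℂ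
  have hC : Cardinal.aleph0 < Cardinal.mk ℂ := by
    rw [Cardinal.mk_complex]
    exact Cardinal.aleph0_lt_continuum
  have ht1 : Cardinal.mk ℂ = Cardinal.mk t :=
    IsAlgClosed.cardinal_eq_cardinal_transcendence_basis_of_aleph0_lt' _ ht (le_of_eq Cardinal.mk_int) hC
  have hst : Cardinal.lift.{0} (Cardinal.mk s) ≤ Cardinal.lift.{u} (Cardinal.mk t) := by
    have h1 : Cardinal.mk s ≤ Cardinal.aleph0 := (Cardinal.mk_set_le s).trans h
    rw [Cardinal.lift_id'.{0, u}]
    refine h1.trans ?_
    rw [← ht1]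
    rw [Cardinal.aleph0_le_lift]
    exact hC.le
  rw [Cardinal.lift_mk_le'] at hst
  obtain ⟨e⟩ := hst
  -- the images of the basis are algebraically independent
  have hw : AlgebraicIndependent ℤ (fun i : s => ((e i : t) : ℂ)) := ht.1.comp e e.injective
  set A := Algebra.adjoin ℤ (Set.range ((↑) : s → K)) with hA
  set f : A →+* ℂ := ((MvPolynomial.aeval (fun i : s => ((e i : t) : ℂ)) :
    MvPolynomial s ℤ →ₐ[ℤ] ℂ) : MvPolynomial s ℤ →+* ℂ).comp
    (hs.1.aevalEquiv.symm : A →+* MvPolynomial s ℤ) with hf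
  have hfinj : Function.Injective f := by
    rw [hf]
    intro a b hab
    simp only [RingHom.coe_comp, Function.comp_apply] at hab
    have h1 := hw hab
    exact hs.1.aevalEquiv.symm.injective h1
  let _ : Algebra A ℂ := f.toAlgebra
  have hfi : Function.Injective (algebraMap A ℂ) := hfinj
  have : FaithfulSMul A ℂ := (faithfulSMul_iff_algebraMap_injective A ℂ).2 hfi
  have : Algebra.IsAlgebraic A K := hs.isAlgebraic
  exact ⟨((IsAlgClosed.lift : K →ₐ[A] ℂ) : K →+* ℂ)⟩

variable {K : Type u} [Field K]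

theorem exists_factor {m : ℕ} (W : Matrix (Fin m) (Fin m) K) :
    ∃ (A : Matrix (Fin m) (Fin W.rank) K) (B : Matrix (Fin W.rank) (Fin m) K), W = A * B := by
  classical
  let bs := Module.finBasis K (LinearMap.range W.mulVecLin)
  refine ⟨Matrix.of fun i e => (bs e : Fin m → K) i,
    Matrix.of fun e j => bs.repr ⟨W.mulVecLin (Pi.single j 1), ⟨_, rfl⟩⟩ e, ?_⟩
  ext i j
  have h1 := bs.sum_repr ⟨W.mulVecLin (Pi.single j 1), ⟨_, rfl⟩⟩
  have h2 := congrArg (fun x : LinearMap.range W.mulVecLin => (x : Fin m → K) i) h1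
  simp only [Submodule.coe_sum, Submodule.coe_smul, Finset.sum_apply, Pi.smul_apply,
    smul_eq_mul] at h2
  have h3 : (W.mulVecLin (Pi.single j 1)) i = W i j := by
    simp
  rw [← h3, ← h2, Matrix.mul_apply]
  apply Finset.sum_congr rfl
  intro e _
  exact mul_comm _ _

theorem exists_complex [CharZero K] {m : ℕ} (W : Matrix (Fin m) (Fin m) K) :
    ∃ W' : Matrix (Fin m) (Fin m) ℂ, W'.rank ≤ W.rank ∧ ∀ x y, W' x y = 0 ↔ W x y = 0 := by
  classical
  obtain ⟨A, B, hAB⟩ := exists_factor W
  set T : Set K := Set.range (fun p : Fin m × Fin W.rank => A p.1 p.2) ∪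
    Set.range (fun p : Fin W.rank × Fin m => B p.1 p.2) with hT
  have hTfin : T.Finite := (Set.finite_range _).union (Set.finite_range _)
  set L := Subfield.closure T with hL
  have hc : Cardinal.mk L ≤ Cardinal.aleph0 := by
    refine (Subfield.cardinalMk_closure_le_max T).trans ?_
    exact max_le (Cardinal.mk_le_aleph0_iff.2 hTfin.countable.to_subtype) le_rfl
  obtain ⟨φ⟩ := exists_embedding L hc
  have hA : ∀ i e, A i e ∈ L := fun i e =>
    Subfield.subset_closure (Or.inl ⟨(i, e), rfl⟩)
  have hB : ∀ e j, B e j ∈ L := fun e j =>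
    Subfield.subset_closure (Or.inr ⟨(e, j), rfl⟩)
  set A' : Matrix (Fin m) (Fin W.rank) L := Matrix.of fun i e => ⟨A i e, hA i e⟩ with hA'
  set B' : Matrix (Fin W.rank) (Fin m) L := Matrix.of fun e j => ⟨B e j, hB e j⟩ with hB'
  refine ⟨A'.map φ * B'.map φ, ?_, fun x y => ?_⟩
  · refine (rank_mul_le_left _ _).trans ?_
    exact rank_le_width _
  · rw [← Matrix.map_mul, Matrix.map_apply, map_eq_zero_iff φ φ.injective]
    have h1 : (((A' * B') x y : L) : K) = W x y := by
      conv_rhs => rw [hAB]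
      rw [Matrix.mul_apply, Matrix.mul_apply]
      push_cast
      rfl
    rw [← h1]
    exact (ZeroMemClass.coe_eq_zero).symm

/-- **Main theorem.** A square matrix over a field of characteristic zero with nonzero diagonal,
whose bipartite graph has no cycle of length `2 k`, has order at most `5 k - 8` times the rank. -/
theorem main_field [CharZero K] (k : ℕ) [NeZero k] (hk : 2 ≤ k) (m : ℕ)
    (W : Matrix (Fin m) (Fin m) K)
    (hd : ∀ i, W i i ≠ 0) (hcyc : NoCyc (fun x y => W x y ≠ 0) k) :
    m ≤ (5 * k - 8) * W.rank := by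
  obtain ⟨W', h1, h2⟩ := exists_complex W
  have h3 := main_complex k hk m W' (fun i h => hd i ((h2 i i).1 h)) (by
    intro x y hx hy h
    refine hcyc x y hx hy fun i => ?_
    obtain ⟨h4, h5⟩ := h i
    exact ⟨fun h6 => h4 ((h2 _ _).2 h6), fun h6 => h5 ((h2 _ _).2 h6)⟩)
  exact h3.trans (Nat.mul_le_mul_left _ h1)

end Pool.Agent.HM13.TR
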