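import Pool.Agent.HM13.TR.Field
import Pool.Agent.N721.SR.C2k
import Pool.Agent.N721.SR.Bs

set_option autoImplicit false
set_option linter.unusedSectionVars false

/-!
# Graphs without `C_{2k}`: the vertex cover number and the number of edges in terms of the rank
-/

namespace Pool.Agent.HM13.TR

open Finset Pool.Agent.N721.SR

/-- a closed walk with distinct vertices gives a copy of the cycle -/
theorem cycle_contained {V : Type} (G : SimpleGraph V) (n : ℕ) (hn : 3 ≤ n) [NeZero n]
    (f : Fin n → V) (hf : Function.Injective f) (h : ∀ i, G.Adj (f i) (f (i + 1))) :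
    ¬ (SimpleGraph.cycleGraph n).Free G := by
  intro hfree
  apply hfree
  obtain ⟨m, rfl⟩ : ∃ m, n = m + 2 := ⟨n - 2, by omega⟩
  refine ⟨⟨⟨f, fun {a b} hab => ?_⟩, hf⟩⟩
  rw [SimpleGraph.cycleGraph_adj] at hab
  rcases hab with h1 | h1
  · have h2 : a = b + 1 := by rw [← h1]; abel
    rw [h2]
    exact (h b).symm
  · have h2 : b = a + 1 := by rw [← h1]; abel
    rw [h2]
    exact h a

/-- the alternating closed walk -/
theorem noCyc_of_free {V : Type} (G : SimpleGraph V) (k : ℕ) [NeZero k] (hk : 2 ≤ k)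
    (hG : (SimpleGraph.cycleGraph (2 * k)).Free G) {X Y : Type} (a : X → V) (b : Y → V)
    (ha : Function.Injective a) (hb : Function.Injective b) (hab : ∀ i j, a i ≠ b j)
    (E : X → Y → Prop) (hE : ∀ i j, E i j → G.Adj (a i) (b j)) : NoCyc E k := by
  intro x y hx hy h
  have : NeZero (2 * k) := ⟨by omega⟩
  have hdiv : ∀ i : Fin (2 * k), i.val / 2 < k := fun i => by
    have := i.2; omega
  refine cycle_contained G (2 * k) (by omega)
    (fun i => if i.val % 2 = 0 then a (x ⟨i.val / 2, hdiv i⟩) else b (y ⟨i.val / 2, hdiv i⟩))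
    (fun i j hij => ?_) (fun i => ?_) hG
  · simp only at hij
    by_cases hi : i.val % 2 = 0
    · by_cases hj : j.val % 2 = 0
      · rw [if_pos hi, if_pos hj] at hij
        have h1 := hx (ha hij)
        rw [Fin.mk.injEq] at h1
        exact Fin.ext (by omega)
      · rw [if_pos hi, if_neg hj] at hij
        exact absurd hij (hab _ _)
    · by_cases hj : j.val % 2 = 0
      · rw [if_neg hi, if_pos hj] at hij
        exact absurd hij.symm (hab _ _)
      · rw [if_neg hi, if_neg hj] at hij
        have h1 := hy (hb hij)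
        rw [Fin.mk.injEq] at h1
        exact Fin.ext (by omega)
  · have hval : (i + 1).val = if i.val + 1 = 2 * k then 0 else i.val + 1 := by
      rw [Fin.val_add]
      have h1 : ((1 : Fin (2 * k)) : ℕ) = 1 := by
        rw [Fin.val_one']
        exact Nat.mod_eq_of_lt (by omega)
      rw [h1]
      have := i.2
      split_ifs with h2
      · rw [h2, Nat.mod_self]
      · exact Nat.mod_eq_of_lt (by omega)
    by_cases hi : i.val % 2 = 0
    · have h1 : (i + 1).val = i.val + 1 := by
        rw [hval, if_neg (by omega)]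
      have h2 : (i + 1).val % 2 ≠ 0 := by omega
      rw [if_pos hi, if_neg h2]
      have h3 : (⟨(i + 1).val / 2, hdiv (i + 1)⟩ : Fin k) = ⟨i.val / 2, hdiv i⟩ := by
        rw [Fin.mk.injEq]; omega
      rw [h3]
      exact hE _ _ (h _).1
    · have h2 : (i + 1).val % 2 = 0 := by
        rw [hval]; split_ifs <;> omega
      rw [if_neg hi, if_pos h2]
      have h3 : (⟨(i + 1).val / 2, hdiv (i + 1)⟩ : Fin k) = ⟨i.val / 2, hdiv i⟩ + 1 := by
        apply Fin.ext
        have h4 : ((1 : Fin k) : ℕ) = 1 := by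
          rw [Fin.val_one']
          exact Nat.mod_eq_of_lt (by omega)
        show (i + 1).val / 2 = ((⟨i.val / 2, hdiv i⟩ + 1 : Fin k)).val
        rw [hval, Fin.val_add, h4]
        show (if i.val + 1 = 2 * k then 0 else i.val + 1) / 2 = (i.val / 2 + 1) % k
        have := i.2
        split_ifs with h5
        · have h6 : i.val / 2 + 1 = k := by omega
          rw [h6, Nat.mod_self]
        · rw [Nat.mod_eq_of_lt (by omega)]
          omega
      rw [h3]
      exact (hE _ _ (h _).2).symm

universe u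

/-- **Vertex covers.** -/
theorem exists_cover {K : Type u} [Field K] [CharZero K] (k : ℕ) (hk : 2 ≤ k) {V : Type} [Fintype V]
    (G : SimpleGraph V) (hG : (SimpleGraph.cycleGraph (2 * k)).Free G) (W : Matrix V V K)
    (hW : ∀ x y, x ≠ y → (W x y ≠ 0 ↔ G.Adj x y)) :
    ∃ U : Finset V, #U ≤ 2 * ((5 * k - 8) * W.rank) ∧ ∀ x y, G.Adj x y → x ∈ U ∨ y ∈ U := by
  classical
  have : NeZero k := ⟨by omega⟩
  let P : ℕ → Prop := fun m => ∃ a b : Fin m → V, Function.Injective a ∧ Function.Injective b ∧
    (∀ i j, a i ≠ b j) ∧ ∀ i, G.Adj (a i) (b i)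
  have hP0 : P 0 := ⟨fun i => i.elim0, fun i => i.elim0, fun i => i.elim0, fun i => i.elim0,
    fun i => i.elim0, fun i => i.elim0⟩
  have hPle : ∀ m, P m → m ≤ Fintype.card V := by
    rintro m ⟨a, b, ha, -⟩
    have := Fintype.card_le_of_injective a ha
    rwa [Fintype.card_fin] at this
  set m := Nat.findGreatest P (Fintype.card V) with hm
  have hPm : P m := Nat.findGreatest_spec (Nat.zero_le _) hP0
  have hPm1 : ¬ P (m + 1) := by
    intro h
    have := Nat.le_findGreatest (hPle _ h) h
    omega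
  obtain ⟨a, b, ha, hb, hab, hadj⟩ := hPm
  refine ⟨univ.image a ∪ univ.image b, ?_, ?_⟩
  · have h1 : m ≤ (5 * k - 8) * (W.submatrix a b).rank := by
      refine main_field k hk m (W.submatrix a b) (fun i => ?_) ?_
      · rw [Matrix.submatrix_apply]
        exact (hW _ _ (hab i i)).2 (hadj i)
      · refine noCyc_of_free G k hk hG a b ha hb hab _ (fun i j hij => ?_)
        rw [Matrix.submatrix_apply] at hij
        exact (hW _ _ (hab i j)).1 hij
    have h2 : (5 * k - 8) * (W.submatrix a b).rank ≤ (5 * k - 8) * W.rank :=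
      Nat.mul_le_mul_left _ (Matrix.rank_submatrix_le W a b)
    have h3 : #(univ.image a ∪ univ.image b) ≤ m + m := by
      refine (card_union_le _ _).trans (Nat.add_le_add ?_ ?_)
      · exact card_image_le.trans (by rw [card_univ, Fintype.card_fin])
      · exact card_image_le.trans (by rw [card_univ, Fintype.card_fin])
    omega
  · intro x y hxy
    by_contra hcon
    push Not at hcon
    obtain ⟨hx, hy⟩ := hcon
    rw [mem_union, not_or, mem_image, mem_image] at hx hy
    have hxa : ∀ i, a i ≠ x := fun i h => hx.1 ⟨i, mem_univ _, h⟩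
    have hxb : ∀ i, b i ≠ x := fun i h => hx.2 ⟨i, mem_univ _, h⟩
    have hya : ∀ i, a i ≠ y := fun i h => hy.1 ⟨i, mem_univ _, h⟩
    have hyb : ∀ i, b i ≠ y := fun i h => hy.2 ⟨i, mem_univ _, h⟩
    apply hPm1
    refine ⟨Fin.snoc a x, Fin.snoc b y, ?_, ?_, ?_, ?_⟩
    · rw [Fin.snoc_injective_iff]
      exact ⟨ha, fun ⟨i, hi⟩ => hxa i hi⟩
    · rw [Fin.snoc_injective_iff]
      exact ⟨hb, fun ⟨i, hi⟩ => hyb i hi⟩
    · intro i j
      refine Fin.lastCases ?_ (fun i => ?_) i
      · refine Fin.lastCases ?_ (fun j => ?_) j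
        · rw [Fin.snoc_last, Fin.snoc_last]; exact hxy.ne
        · rw [Fin.snoc_last, Fin.snoc_castSucc]; exact (hxb j).symm
      · refine Fin.lastCases ?_ (fun j => ?_) j
        · rw [Fin.snoc_last, Fin.snoc_castSucc]; exact hya i
        · rw [Fin.snoc_castSucc, Fin.snoc_castSucc]; exact hab i j
    · intro i
      refine Fin.lastCases ?_ (fun i => ?_) i
      · rw [Fin.snoc_last, Fin.snoc_last]; exact hxy
      · rw [Fin.snoc_castSucc, Fin.snoc_castSucc]; exact hadj i

theorem edges_eq {V : Type} [Fintype V] (G : SimpleGraph V) :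
    ee G univ univ = 2 * (Nat.card G.edgeSet : ℝ) := by
  classical
  rw [ee_degree, ← Nat.cast_sum, SimpleGraph.sum_degrees_eq_twice_card_edges]
  rw [Nat.card_eq_fintype_card, ← SimpleGraph.edgeFinset_card]
  push_cast
  rfl

theorem edges_le_cover {V : Type} [Fintype V] (G : SimpleGraph V) (U : Finset V)
    (hU : ∀ x y, G.Adj x y → x ∈ U ∨ y ∈ U) : (Nat.card G.edgeSet : ℝ) ≤ ee G U univ := by
  classical
  have h1 : ee G univ univ ≤ ee G U univ + ee G univ U := by
    unfold ee
    have e1 : ∑ x ∈ U, ∑ y, (if G.Adj x y then (1 : ℝ) else 0) =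
        ∑ x, ∑ y, if x ∈ U then (if G.Adj x y then (1 : ℝ) else 0) else 0 := by
      have e0 : ∑ x ∈ U, ∑ y, (if G.Adj x y then (1 : ℝ) else 0) =
          ∑ x, if x ∈ U then ∑ y, (if G.Adj x y then (1 : ℝ) else 0) else 0 := by
        rw [sum_ite_mem, univ_inter]
      rw [e0]
      refine sum_congr rfl fun x _ => ?_
      by_cases h : x ∈ U
      · rw [if_pos h]
        exact sum_congr rfl fun y _ => by rw [if_pos h]
      · rw [if_neg h]
        exact (sum_eq_zero fun y _ => by rw [if_neg h]).symm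
    have e2 : ∑ x, ∑ y ∈ U, (if G.Adj x y then (1 : ℝ) else 0) =
        ∑ x, ∑ y, if y ∈ U then (if G.Adj x y then (1 : ℝ) else 0) else 0 := by
      refine sum_congr rfl fun x _ => ?_
      rw [sum_ite_mem, univ_inter]
    rw [e1, e2, ← sum_add_distrib]
    refine sum_le_sum fun x _ => ?_
    rw [← sum_add_distrib]
    refine sum_le_sum fun y _ => ?_
    by_cases h : G.Adj x y
    · rcases hU x y h with h2 | h2 <;> by_cases h3 : x ∈ U <;> by_cases h4 : y ∈ U <;>
        simp_all
    · simp [h]
  rw [ee_comm G univ U] at h1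
  have h2 := edges_eq G
  linarith

end Pool.Agent.HM13.TR
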