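import Pool.Agent.HM13.TR.Core

set_option autoImplicit false
set_option linter.unusedSectionVars false

/-!
# Square complex matrices with nonzero diagonal and no cycle of length `2 k`
-/

namespace Pool.Agent.HM13.TR

open Finset Matrix

theorem sum_row {m : ℕ} (P : Fin m → Fin m → Prop) [∀ x y, Decidable (P x y)]
    (g : Fin m × Fin m → ℝ) (x : Fin m) :
    ∑ e ∈ univ.filter (fun e : Fin m × Fin m => P e.1 e.2), (if e.1 = x then g e else 0) =
      ∑ y, if P x y then g (x, y) else 0 := by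
  rw [sum_filter, Fintype.sum_prod_type]
  rw [sum_eq_single x]
  · refine sum_congr rfl fun y _ => ?_
    simp
  · intro x' _ hx'
    refine sum_eq_zero fun y _ => ?_
    simp [hx']
  · intro h; exact absurd (mem_univ _) h

theorem sum_col {m : ℕ} (P : Fin m → Fin m → Prop) [∀ x y, Decidable (P x y)]
    (g : Fin m × Fin m → ℝ) (y : Fin m) :
    ∑ e ∈ univ.filter (fun e : Fin m × Fin m => P e.1 e.2), (if e.2 = y then g e else 0) =
      ∑ x, if P x y then g (x, y) else 0 := by
  rw [sum_filter, Fintype.sum_prod_type_right]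
  rw [sum_eq_single y]
  · refine sum_congr rfl fun x _ => ?_
    simp
  · intro x' _ hx'
    refine sum_eq_zero fun y _ => ?_
    simp [hx']
  · intro h; exact absurd (mem_univ _) h

open Classical in
/-- **Main theorem over the complex numbers.** -/
theorem main_complex (k : ℕ) [NeZero k] (hk : 2 ≤ k) (m : ℕ) (W : Matrix (Fin m) (Fin m) ℂ)
    (hd : ∀ i, W i i ≠ 0) (hcyc : NoCyc (fun x y => W x y ≠ 0) k) :
    m ≤ (5 * k - 8) * W.rank := by
  rcases Nat.eq_zero_or_pos m with hm | hm
  · omega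
  have hm0 : (0 : ℝ) < m := by exact_mod_cast hm
  obtain ⟨η, hη⟩ : ∃ η : ℝ, η = 1 / (m * (m + 1)) := ⟨_, rfl⟩
  have hη0 : 0 < η := by rw [hη]; positivity
  obtain ⟨κ, hκ⟩ : ∃ κ : ℝ, κ = 1 - η * m := ⟨_, rfl⟩
  have hκ' : κ = m / (m + 1) := by
    rw [hκ, hη]; field_simp; ring
  have hκ0 : 0 < κ := by rw [hκ']; positivity
  set E : Finset (Fin m × Fin m) := univ.filter (fun e : Fin m × Fin m => W e.1 e.2 ≠ 0) with hE
  set A : Fin m × Fin m → ℝ := fun e => ‖W e.1 e.2‖ ^ 2 with hA
  set F : Fin m × Fin m → ℝ := fun e => (if e.1 = e.2 then κ else 0) + η with hF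
  obtain ⟨a, b, hrow, hcol⟩ := exists_scaling E A F (fun e he => by
    rw [hE, mem_filter] at he
    have := norm_pos_iff.2 he.2
    simp only [hA]
    positivity) η hη0 (fun e _ => by
    simp only [hF]
    split_ifs <;> linarith)
  set D₁ : Matrix (Fin m) (Fin m) ℂ := diagonal fun x => ((Real.exp (a x / 2) : ℝ) : ℂ) with hD₁
  set D₂ : Matrix (Fin m) (Fin m) ℂ := diagonal fun y => ((Real.exp (b y / 2) : ℝ) : ℂ) with hD₂
  set M : Matrix (Fin m) (Fin m) ℂ := D₁ * W * D₂ with hM
  have hMe : ∀ x y, M x y = ((Real.exp (a x / 2) : ℝ) : ℂ) * W x y * ((Real.exp (b y / 2) : ℝ) : ℂ) := by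
    intro x y
    rw [hM, hD₁, hD₂, mul_diagonal, diagonal_mul]
  have hMn : ∀ x y, ‖M x y‖ ^ 2 = A (x, y) * Real.exp (a x + b y) := by
    intro x y
    rw [hMe, norm_mul, norm_mul, Complex.norm_real, Complex.norm_real, Real.norm_eq_abs,
      Real.norm_eq_abs, abs_of_pos (Real.exp_pos _), abs_of_pos (Real.exp_pos _)]
    have h1 : Real.exp (a x + b y) = Real.exp (a x / 2) ^ 2 * Real.exp (b y / 2) ^ 2 := by
      rw [← Real.exp_nat_mul, ← Real.exp_nat_mul, ← Real.exp_add]
      congr 1
      push_cast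
      ring
    rw [h1]
    simp only [hA]
    ring
  have hM0 : ∀ x y, W x y = 0 → ‖M x y‖ ^ 2 = 0 := by
    intro x y h
    rw [hMn]
    simp only [hA]
    rw [h]
    simp
  have hrank : M.rank ≤ W.rank := by
    rw [hM]
    exact (rank_mul_le_left _ _).trans (rank_mul_le_right _ _)
  have hsr : ∀ x, ∑ y, ‖M x y‖ ^ 2 = ∑ y, if W x y ≠ 0 then F (x, y) else 0 := by
    intro x
    have h1 := hrow x
    rw [hE, sum_row (fun x y => W x y ≠ 0), sum_row (fun x y => W x y ≠ 0) F] at h1
    rw [← h1]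
    refine sum_congr rfl fun y _ => ?_
    by_cases h : W x y = 0
    · rw [hM0 x y h, if_neg (by simpa using h)]
    · rw [if_pos h, hMn]
  have hsc : ∀ y, ∑ x, ‖M x y‖ ^ 2 = ∑ x, if W x y ≠ 0 then F (x, y) else 0 := by
    intro y
    have h1 := hcol y
    rw [hE, sum_col (fun x y => W x y ≠ 0), sum_col (fun x y => W x y ≠ 0) F] at h1
    rw [← h1]
    refine sum_congr rfl fun x _ => ?_
    by_cases h : W x y = 0
    · rw [hM0 x y h, if_neg (by simpa using h)]
    · rw [if_pos h, hMn]
  have hF0 : ∀ e, 0 < F e := fun e => by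
    simp only [hF]
    split_ifs <;> linarith
  have hrow1 : ∀ x, ∑ y, ‖M x y‖ ^ 2 ≤ 1 := by
    intro x
    rw [hsr]
    calc ∑ y, (if W x y ≠ 0 then F (x, y) else 0) ≤ ∑ y, F (x, y) :=
          sum_le_sum fun y _ => by
            split_ifs
            · exact le_rfl
            · exact (hF0 _).le
      _ = 1 := by
          simp only [hF, sum_add_distrib, sum_const, card_univ, Fintype.card_fin, nsmul_eq_mul]
          rw [sum_ite_eq, if_pos (mem_univ _), hκ]
          ring
  have hcol1 : ∀ y, ∑ x, ‖M x y‖ ^ 2 ≤ 1 := by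
    intro y
    rw [hsc]
    calc ∑ x, (if W x y ≠ 0 then F (x, y) else 0) ≤ ∑ x, F (x, y) :=
          sum_le_sum fun x _ => by
            split_ifs
            · exact le_rfl
            · exact (hF0 _).le
      _ = 1 := by
          simp only [hF, sum_add_distrib, sum_const, card_univ, Fintype.card_fin, nsmul_eq_mul]
          rw [sum_ite_eq', if_pos (mem_univ _), hκ]
          ring
  set τ := ∑ x, ∑ y, ‖M x y‖ ^ 2 with hτ
  have hτ1 : (m : ℝ) * κ ≤ τ := by
    calc (m : ℝ) * κ = ∑ _x : Fin m, κ := by simp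
      _ ≤ τ := by
        rw [hτ]
        refine sum_le_sum fun x _ => ?_
        rw [hsr]
        calc κ ≤ (if W x x ≠ 0 then F (x, x) else 0) := by
              rw [if_pos (hd x)]
              simp only [hF, if_true]
              linarith
          _ ≤ _ := by
              refine single_le_sum (f := fun y => if W x y ≠ 0 then F (x, y) else 0)
                (fun y _ => ?_) (mem_univ x)
              show 0 ≤ (if W x y ≠ 0 then F (x, y) else 0)
              by_cases h : W x y ≠ 0
              · rw [if_pos h]; exact (hF0 _).le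
              · rw [if_neg h]
  have hτ0 : 0 < τ := lt_of_lt_of_le (by positivity) hτ1
  have hsum := sum_bound (fun x y => W x y ≠ 0) k hk hcyc (fun x y => ‖M x y‖)
    (fun x y => norm_nonneg _) (fun x y h => by
      intro h0
      apply h
      have := hM0 x y h0
      exact pow_eq_zero_iff (two_ne_zero) |>.1 this) hrow1 hcol1
  have h1 := rank_ineq M
  have h2 : ∑ x, ∑ x', ‖(M * Mᴴ) x x'‖ ^ 2 ≤ (5 * (k : ℝ) - 8) * τ := by
    refine le_trans (sum_le_sum fun x _ => sum_le_sum fun x' _ => ?_) hsum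
    refine pow_le_pow_left₀ (norm_nonneg _) ?_ 2
    rw [mul_apply]
    refine (norm_sum_le _ _).trans (le_of_eq ?_)
    refine sum_congr rfl fun y _ => ?_
    rw [norm_mul, conjTranspose_apply, norm_star]
  have h3 : τ ^ 2 ≤ (M.rank : ℝ) * ((5 * (k : ℝ) - 8) * τ) :=
    h1.trans (mul_le_mul_of_nonneg_left h2 (by positivity))
  have h4 : τ ≤ (M.rank : ℝ) * (5 * (k : ℝ) - 8) := by
    have : τ * τ ≤ ((M.rank : ℝ) * (5 * (k : ℝ) - 8)) * τ := by nlinarith
    exact le_of_mul_le_mul_right this hτ0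
  have hk2 : (2 : ℝ) ≤ k := by exact_mod_cast hk
  have h5 : (M.rank : ℝ) ≤ W.rank := by exact_mod_cast hrank
  have h6 : (m : ℝ) * κ ≤ (W.rank : ℝ) * (5 * (k : ℝ) - 8) :=
    (hτ1.trans h4).trans (mul_le_mul_of_nonneg_right h5 (by linarith))
  have h7 : (m : ℝ) - 1 < m * κ := by
    rw [hκ', mul_div_assoc', lt_div_iff₀ (by positivity)]
    nlinarith
  have h8 : (m : ℝ) < ((5 * k - 8 : ℕ) : ℝ) * W.rank + 1 := by
    rw [Nat.cast_sub (by omega)]
    push_cast
    nlinarith
  have h9 : m < (5 * k - 8) * W.rank + 1 := by exact_mod_cast h8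
  omega

end Pool.Agent.HM13.TR
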