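import Mathlib

set_option autoImplicit false
set_option linter.unusedSectionVars false

/-!
# Scaling a nonnegative matrix to prescribed row and column sums
-/

namespace Pool.Agent.HM13.TR

open Finset

theorem term_lower (A F : ℝ) (hA : 0 < A) (hF : 0 < F) :
    ∃ C : ℝ, ∀ t : ℝ, F * |t| - C ≤ A * Real.exp t - F * t := by
  refine ⟨|2 * F * (Real.log (2 * F / A) - 1)|, fun t => ?_⟩
  have h1 : 2 * F * (t - Real.log (2 * F / A) + 1) ≤ A * Real.exp t := by
    have h2 := Real.add_one_le_exp (t - Real.log (2 * F / A))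
    have h3 : A * Real.exp t = 2 * F * Real.exp (t - Real.log (2 * F / A)) := by
      rw [Real.exp_sub, Real.exp_log (by positivity)]
      field_simp
    rw [h3]
    exact mul_le_mul_of_nonneg_left h2 (by positivity)
  have h4 := Real.exp_pos t
  have h5 := le_abs_self (2 * F * (Real.log (2 * F / A) - 1))
  have h6 := abs_nonneg (2 * F * (Real.log (2 * F / A) - 1))
  rcases le_total 0 t with ht | ht
  · rw [abs_of_nonneg ht]
    nlinarith
  · rw [abs_of_nonpos ht]
    have : 0 < A * Real.exp t := by positivity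
    nlinarith

section

variable {X Y : Type} [Fintype X] [Fintype Y] [DecidableEq X] [DecidableEq Y]

/-- the map which sends the logarithms of the factors to their sums -/
def Phi (E : Finset (X × Y)) : ((X → ℝ) × (Y → ℝ)) →ₗ[ℝ] (E → ℝ) where
  toFun p := fun e => p.1 e.1.1 + p.2 e.1.2
  map_add' p q := by
    funext e
    simp only [Prod.fst_add, Prod.snd_add, Pi.add_apply]
    ring
  map_smul' c p := by
    funext e
    simp only [Prod.smul_fst, Prod.smul_snd, Pi.smul_apply, smul_eq_mul, RingHom.id_apply]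
    ring

theorem exists_min (E : Finset (X × Y)) (A F : X × Y → ℝ) (hA : ∀ e ∈ E, 0 < A e) (η : ℝ)
    (hη : 0 < η) (hF : ∀ e ∈ E, η ≤ F e) :
    ∃ t ∈ LinearMap.range (Phi E), ∀ s ∈ LinearMap.range (Phi E),
      ∑ e : E, (A e * Real.exp (t e) - F e * t e) ≤ ∑ e : E, (A e * Real.exp (s e) - F e * s e) := by
  classical
  obtain ⟨C, hC⟩ : ∃ C : E → ℝ, ∀ (e : E) (t : ℝ), F e * |t| - C e ≤ A e * Real.exp t - F e * t := by
    choose C hC using fun e : E =>
      term_lower (A e) (F e) (hA e e.2) (lt_of_lt_of_le hη (hF e e.2))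
    exact ⟨C, hC⟩
  set S := LinearMap.range (Phi E) with hS
  set g : S → ℝ := fun s => ∑ e : E, (A e * Real.exp (s.1 e) - F e * s.1 e) with hg
  have hcont : Continuous g := by
    rw [hg]
    refine continuous_finsetSum _ fun e _ => ?_
    have h1 : Continuous fun s : S => s.1 e := (continuous_apply e).comp continuous_subtype_val
    exact (continuous_const.mul (Real.continuous_exp.comp h1)).sub (continuous_const.mul h1)
  have hlow : ∀ s : S, η * ‖s‖ - ∑ e, C e ≤ g s := by
    intro s
    have h1 : ‖s‖ ≤ ∑ e : E, |s.1 e| := by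
      change ‖s.1‖ ≤ _
      refine (pi_norm_le_iff_of_nonneg (sum_nonneg fun e _ => abs_nonneg _)).2 fun e => ?_
      rw [Real.norm_eq_abs]
      exact single_le_sum (f := fun e : E => |s.1 e|) (fun e _ => abs_nonneg _) (mem_univ e)
    calc η * ‖s‖ - ∑ e, C e ≤ η * (∑ e : E, |s.1 e|) - ∑ e, C e := by
          have := mul_le_mul_of_nonneg_left h1 hη.le
          linarith
      _ = ∑ e : E, (η * |s.1 e| - C e) := by rw [mul_sum, sum_sub_distrib]
      _ ≤ ∑ e : E, (F e * |s.1 e| - C e) := by
          refine sum_le_sum fun e _ => ?_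
          have := mul_le_mul_of_nonneg_right (hF e e.2) (abs_nonneg (s.1 e))
          linarith
      _ ≤ g s := sum_le_sum fun e _ => hC e _
  have : ProperSpace S := FiniteDimensional.proper_real S
  have hlim : Filter.Tendsto g (Filter.cocompact S) Filter.atTop := by
    refine Filter.tendsto_atTop_mono hlow ?_
    have h1 : Filter.Tendsto (fun s : S => ‖s‖) (Filter.cocompact S) Filter.atTop :=
      tendsto_norm_cocompact_atTop
    have h2 := h1.const_mul_atTop hη
    exact Filter.tendsto_atTop_add_const_right _ _ h2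
  obtain ⟨t, ht⟩ := hcont.exists_forall_le hlim
  exact ⟨t.1, t.2, fun s hs => ht ⟨s, hs⟩⟩

theorem first_order (E : Finset (X × Y)) (A F : X × Y → ℝ) (t : E → ℝ)
    (ht : t ∈ LinearMap.range (Phi E))
    (hmin : ∀ s ∈ LinearMap.range (Phi E),
      ∑ e : E, (A e * Real.exp (t e) - F e * t e) ≤ ∑ e : E, (A e * Real.exp (s e) - F e * s e))
    (v : E → ℝ) (hv : v ∈ LinearMap.range (Phi E)) :
    ∑ e : E, v e * (A e * Real.exp (t e)) = ∑ e : E, v e * F e := by
  set h : ℝ → ℝ := fun u => ∑ e : E, (A e * Real.exp (t e + u * v e) - F e * (t e + u * v e)) with hh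
  have h1 : HasDerivAt h (∑ e : E, (A e * (Real.exp (t e + 0 * v e) * v e) - F e * v e)) 0 := by
    rw [hh]
    refine HasDerivAt.fun_sum fun e _ => ?_
    have h2 : HasDerivAt (fun u : ℝ => t e + u * v e) (v e) 0 := by
      have h3 := ((hasDerivAt_id (0 : ℝ)).mul_const (v e)).const_add (t e)
      simpa using h3
    exact (h2.exp.const_mul (A e)).sub (h2.const_mul (F e))
  have h2 : IsLocalMin h 0 := by
    refine Filter.Eventually.of_forall fun u => ?_
    have h3 := hmin (t + u • v) (Submodule.add_mem _ ht (Submodule.smul_mem _ u hv))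
    simp only [hh, zero_mul, add_zero]
    simpa using h3
  have h3 := h2.hasDerivAt_eq_zero h1
  simp only [zero_mul, add_zero] at h3
  rw [← sub_eq_zero, ← sum_sub_distrib, ← h3]
  refine sum_congr rfl fun e _ => ?_
  ring

/-- **Scaling.** A matrix with positive entries in the places of `E` can be scaled to have the row
and column sums of any other such matrix. -/
theorem exists_scaling (E : Finset (X × Y)) (A F : X × Y → ℝ) (hA : ∀ e ∈ E, 0 < A e) (η : ℝ)
    (hη : 0 < η) (hF : ∀ e ∈ E, η ≤ F e) :
    ∃ (a : X → ℝ) (b : Y → ℝ),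
      (∀ x, ∑ e ∈ E, (if e.1 = x then A e * Real.exp (a e.1 + b e.2) else 0) =
        ∑ e ∈ E, (if e.1 = x then F e else 0)) ∧
      (∀ y, ∑ e ∈ E, (if e.2 = y then A e * Real.exp (a e.1 + b e.2) else 0) =
        ∑ e ∈ E, (if e.2 = y then F e else 0)) := by
  classical
  obtain ⟨t, ht, hmin⟩ := exists_min E A F hA η hη hF
  obtain ⟨⟨a, b⟩, hab⟩ := ht
  have hfo := first_order E A F t ⟨(a, b), hab⟩ hmin
  have hte : ∀ e : E, t e = a e.1.1 + b e.1.2 := by
    intro e
    rw [← hab]
    rfl
  refine ⟨a, b, fun x => ?_, fun y => ?_⟩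
  · have h1 := hfo (Phi E (Pi.single x 1, 0)) ⟨_, rfl⟩
    have h2 : ∀ e : E, Phi E (Pi.single x 1, 0) e = if e.1.1 = x then 1 else 0 := by
      intro e
      simp [Phi, Pi.single_apply]
    rw [← sum_coe_sort E, ← sum_coe_sort E]
    calc ∑ e : E, (if e.1.1 = x then A e.1 * Real.exp (a e.1.1 + b e.1.2) else 0) =
        ∑ e : E, Phi E (Pi.single x 1, 0) e * (A e * Real.exp (t e)) := by
          refine sum_congr rfl fun e _ => ?_
          rw [h2, hte]
          split_ifs <;> simp
      _ = _ := h1
      _ = _ := by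
          refine sum_congr rfl fun e _ => ?_
          rw [h2]
          split_ifs <;> simp
  · have h1 := hfo (Phi E (0, Pi.single y 1)) ⟨_, rfl⟩
    have h2 : ∀ e : E, Phi E (0, Pi.single y 1) e = if e.1.2 = y then 1 else 0 := by
      intro e
      simp [Phi, Pi.single_apply]
    rw [← sum_coe_sort E, ← sum_coe_sort E]
    calc ∑ e : E, (if e.1.2 = y then A e.1 * Real.exp (a e.1.1 + b e.1.2) else 0) =
        ∑ e : E, Phi E (0, Pi.single y 1) e * (A e * Real.exp (t e)) := by
          refine sum_congr rfl fun e _ => ?_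
          rw [h2, hte]
          split_ifs <;> simp
      _ = _ := h1
      _ = _ := by
          refine sum_congr rfl fun e _ => ?_
          rw [h2]
          split_ifs <;> simp

end

end Pool.Agent.HM13.TR
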